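import Pool.Agent.Helper877_Fin.Fin3

/-!
# The length of a Steiner tree inside a smaller concentric ball is bounded

For every dimension `d ≥ 3` there is a constant `C` such that for all `0 < t < 1` a Steiner tree
whose terminals lie outside the ball `B_r(x)` has length at most `C (1 - t)^(-(d-2)) r` inside
`B_{tr}(x)`. In particular `M_d(t)` is finite.
-/

set_option autoImplicit false

open scoped MeasureTheory ENNReal
open MeasureTheory Set

namespace Pool.Agent.Results.MP_323107_co.FiniteLength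

/-- `S` is a Steiner tree (of finite length) for the set `A` of terminals: a closed connected set
such that `S ∪ A` is connected, of minimal `ℋ¹` measure among all closed sets `T` such that
`T ∪ A` is connected. -/
def IsSteinerTree {d : ℕ} (A S : Set (EuclideanSpace ℝ (Fin d))) : Prop :=
  IsClosed S ∧ IsConnected S ∧ IsConnected (S ∪ A) ∧ μH[1] S < ⊤ ∧
    ∀ T : Set (EuclideanSpace ℝ (Fin d)), IsClosed T → IsConnected (T ∪ A) → μH[1] S ≤ μH[1] T

/-- The supremum of `ℋ¹(S ∩ B_{tr}(x)) / r` over all compact sets `A`, all Steiner trees `S` for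
`A` (full or not) and all balls `B_r(x)` that contain no point of `A`. -/
noncomputable def Mall (d : ℕ) (t : ℝ) : ℝ≥0∞ :=
  sSup {l | ∃ (A S : Set (EuclideanSpace ℝ (Fin d))) (x : EuclideanSpace ℝ (Fin d)) (r : ℝ),
    IsCompact A ∧ IsSteinerTree A S ∧ 0 < r ∧ A ∩ Metric.ball x r = ∅ ∧
      l = μH[1] (S ∩ Metric.ball x (t * r)) / ENNReal.ofReal r}

/-- In every dimension `d ≥ 3` there is a constant `C` such that for all `t ∈ (0, 1)` the length
inside `B_{tr}(x)` is at most `C (1 - t)^(-(d-2)) r`. -/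
theorem result : ∀ d : ℕ, 3 ≤ d → ∃ C : ℝ, 0 < C ∧ ∀ t : ℝ, 0 < t → t < 1 →
    Mall d t ≤ ENNReal.ofReal (C / (1 - t) ^ (d - 2)) := by
  intro d hd
  have hCd := Pool.Agent.Helper877_Fin.Cd_pos (d := d)
  have hd1 : (1:ℝ) ≤ Real.sqrt d := by
    rw [Real.one_le_sqrt]
    have : 1 ≤ d := by omega
    exact_mod_cast this
  refine ⟨2 * Pool.Agent.Helper877_Fin.Cd d * (2 * (Real.sqrt d * 2 ^ d)) ^ (d - 2),
    by positivity, ?_⟩
  intro t ht0 ht1
  have h1t : 0 < 1 - t := by linarith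
  have h2d : (1:ℝ) ≤ 2 ^ d := one_le_pow₀ (by norm_num)
  obtain ⟨J, hJ1, hJ2⟩ := Pool.Agent.Helper877_Fin.exists_level
    (x := Real.sqrt d * 2 ^ d / (1 - t)) (by
      rw [le_div_iff₀ h1t]
      nlinarith)
  refine sSup_le ?_
  rintro _ ⟨A, S, x, r, hA, ⟨hSc, hSconn, hSA, hSfin, hmin⟩, hr, hAr, rfl⟩
  have hr0 : ENNReal.ofReal r ≠ 0 := by
    rw [Ne, ENNReal.ofReal_eq_zero, not_le]; exact hr
  rw [ENNReal.div_le_iff hr0 ENNReal.ofReal_ne_top, ← ENNReal.ofReal_mul (by positivity)]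
  have hloc := Pool.Agent.Helper877_Fin.locMin_of_set hA.isClosed hSc hSA.isPreconnected
    hSfin.ne hmin hAr
  have hfin : μH[1] (S ∩ Metric.ball x r) ≠ ⊤ :=
    ne_top_of_le_ne_top hSfin.ne (measure_mono inter_subset_left)
  have hfin' : μH[1] (S ∩ Metric.ball x (t * r)) ≠ ⊤ :=
    ne_top_of_le_ne_top hSfin.ne (measure_mono inter_subset_left)
  have key := Pool.Agent.Helper877_Fin.length_bound2 hd hSc hr hfin hloc ht0 ht1 (J := J) (by
    rwa [div_le_iff₀ h1t] at hJ1)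
  rw [← ENNReal.ofReal_toReal hfin']
  apply ENNReal.ofReal_le_ofReal
  refine key.trans ?_
  have h3 : ((2:ℝ) ^ (d - 2)) ^ J ≤ (2 * (Real.sqrt d * 2 ^ d)) ^ (d - 2) / (1 - t) ^ (d - 2) := by
    rw [← pow_mul, mul_comm (d - 2) J, pow_mul, ← div_pow]
    refine pow_le_pow_left₀ (by positivity) ?_ _
    rw [mul_div_assoc]
    exact hJ2
  calc 2 * (Pool.Agent.Helper877_Fin.Cd d * ((2:ℝ) ^ (d - 2)) ^ J * r)
      = ((2:ℝ) ^ (d - 2)) ^ J * (2 * Pool.Agent.Helper877_Fin.Cd d * r) := by ring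
    _ ≤ (2 * (Real.sqrt d * 2 ^ d)) ^ (d - 2) / (1 - t) ^ (d - 2) *
        (2 * Pool.Agent.Helper877_Fin.Cd d * r) := mul_le_mul_of_nonneg_right h3 (by positivity)
    _ = _ := by ring

end Pool.Agent.Results.MP_323107_co.FiniteLength
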